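import Mathlib
import Pool.Agent.Q35.SB.Main

set_option autoImplicit false

/-! `β_j(2,4) = β_j(2,5) = j * binom(e-2, j+1)` for the semigroup rings of `S_{2,4}`, `S_{2,5}`. -/

namespace Pool.Agent.Results.MP_c132d1_al.BettiFormula

open Pool.Agent.Q35.SB

universe u

/-- For every field `k`, every `e ≥ 6` and every `j ≥ 1`, the Betti numbers
`β_j(2,4)` and `β_j(2,5)` are both equal to `j * binom(e-2, j+1)`. -/
theorem result (k : Type u) [Field k] (e : ℕ) (he : 6 ≤ e) (j : ℕ) (hj : 1 ≤ j) :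
    betti k e 2 4 j = ((j * (e - 2).choose (j + 1) : ℕ) : Cardinal.{u}) ∧
    betti k e 2 5 j = ((j * (e - 2).choose (j + 1) : ℕ) : Cardinal.{u}) := by
  obtain ⟨i, rfl⟩ : ∃ i, j = i + 1 := ⟨j - 1, by omega⟩
  have h : e - 5 + 3 = e - 2 := by omega
  constructor
  · rw [betti_eq k e 4 he (Or.inl rfl)]
    simp only [B]
    rw [h]
  · rw [betti_eq k e 5 he (Or.inr rfl)]
    simp only [B]
    rw [h]

end Pool.Agent.Results.MP_c132d1_al.BettiFormula
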